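import Pool.Agent.Lib.EC60.Fin

set_option autoImplicit false
open scoped Classical

namespace Pool.Agent.Results.MP_f5d5f4_nt.LowDegreeCongruence

/-- **A congruence that is not an isogeny is not given by a rational function of low degree.**
Let `p` be a prime, let `E₁ : y² = x³ + A₁x + B₁` and `E₂ : y² = x³ + A₂x + B₂` be elliptic curves
over `ℚ` and let `φ : E₁[p] → E₂[p]` be a Galois-equivariant isomorphism. Let `u, v` be rational
polynomials of degree at most `d`, not both zero, and let `S` be a set of nonzero points `P` of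
`E₁[p]` with `u(x(P)) = x(φ(P)) v(x(P))`. If `(8d + 1)(p² - 1) < |S|(|S| - 1)`, then `E₁` and `E₂`
are isogenous over `ℚ`. -/
theorem result (p : ℕ) (hp : p.Prime) (d : ℕ)
    (A₁ B₁ A₂ B₂ : ℚ) (h₁ : 4 * A₁ ^ 3 + 27 * B₁ ^ 2 ≠ 0) (h₂ : 4 * A₂ ^ 3 + 27 * B₂ ^ 2 ≠ 0)
    (φ : (Submodule.torsionBy ℤ
            (((WeierstrassCurve.mk 0 0 0 A₁ B₁ : WeierstrassCurve ℚ).baseChange
              (AlgebraicClosure ℚ)).toAffine.Point) (p : ℤ)) ≃+
          (Submodule.torsionBy ℤ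
            (((WeierstrassCurve.mk 0 0 0 A₂ B₂ : WeierstrassCurve ℚ).baseChange
              (AlgebraicClosure ℚ)).toAffine.Point) (p : ℤ)))
    (hφ : ∀ σ : AlgebraicClosure ℚ ≃ₐ[ℚ] AlgebraicClosure ℚ,
      ∀ P Q : Submodule.torsionBy ℤ
            (((WeierstrassCurve.mk 0 0 0 A₁ B₁ : WeierstrassCurve ℚ).baseChange
              (AlgebraicClosure ℚ)).toAffine.Point) (p : ℤ),
        Q.1 = WeierstrassCurve.Affine.Point.map σ.toAlgHom P.1 →
          (φ Q).1 = WeierstrassCurve.Affine.Point.map σ.toAlgHom (φ P).1)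
    (u v : Polynomial ℚ) (hu : u.natDegree ≤ d) (hv : v.natDegree ≤ d) (huv : u ≠ 0 ∨ v ≠ 0)
    (S : Finset (Submodule.torsionBy ℤ
            (((WeierstrassCurve.mk 0 0 0 A₁ B₁ : WeierstrassCurve ℚ).baseChange
              (AlgebraicClosure ℚ)).toAffine.Point) (p : ℤ)))
    (hS : ∀ P ∈ S, P ≠ 0 ∧ ∀ x y h x' y' h',
      P.1 = WeierstrassCurve.Affine.Point.some x y h →
      (φ P).1 = WeierstrassCurve.Affine.Point.some x' y' h' →
      Polynomial.aeval x u = x' * Polynomial.aeval x v)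
    (hcard : (8 * d + 1) * (p ^ 2 - 1) < S.card * (S.card - 1)) :
    ∃ a b : RatFunc ℚ, (∀ c : ℚ, a ≠ RatFunc.C c) ∧
      (RatFunc.X ^ 3 + RatFunc.C A₁ * RatFunc.X + RatFunc.C B₁) * b ^ 2
        = a ^ 3 + RatFunc.C A₂ * a + RatFunc.C B₂ := by
  have := Pool.Agent.Lib.EC60.isGalois_rat
  exact Pool.Agent.Lib.EC60.thm_prime_sub (K := ℚ) (L := AlgebraicClosure ℚ)
    (W₁ := WeierstrassCurve.mk 0 0 0 A₁ B₁) (W₂ := WeierstrassCurve.mk 0 0 0 A₂ B₂)
    h₁ h₂ hp φ hφ hu hv huv S hS hcard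

end Pool.Agent.Results.MP_f5d5f4_nt.LowDegreeCongruence
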